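import Pool.Agent.W192.CY.Stm

set_option autoImplicit false

open Finset

namespace Pool.Agent.W479.CY

open Pool.Agent.W192.CY

lemma ind (r : ℕ) (hr : 0 < r) (d : ℕ) (hd : 0 < d) :
    ∑ e ∈ d.divisors, ((ArithmeticFunction.moebius (d / e) : ℤ) : ℂ) * (if r ∣ e then 1 else 0) =
      if d = r then 1 else 0 := by
  have h := (ArithmeticFunction.sum_eq_iff_sum_mul_moebius_eq (R := ℂ)
    (f := fun n => if n = r then 1 else 0) (g := fun n => if r ∣ n then 1 else 0)).1 (by
      intro n hn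
      rw [Finset.sum_ite_eq' n.divisors r (fun _ => (1 : ℂ))]
      by_cases h1 : r ∣ n
      · rw [if_pos h1, if_pos (Nat.mem_divisors.2 ⟨h1, hn.ne'⟩)]
      · rw [if_neg h1, if_neg (fun h2 => h1 (Nat.mem_divisors.1 h2).1)]) d hd
  rw [← h]
  exact (Nat.sum_divisorsAntidiagonal' (n := d)
    (fun a b => ((ArithmeticFunction.moebius a : ℤ) : ℂ) * (if r ∣ b then 1 else 0))).symm

theorem t_mob : S_MOB := by
  classical
  intro q hq d hd
  have hq1 : 0 < q - 1 := by have := hq.out.two_le; omega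
  have hd0 : 0 < d := Nat.pos_of_dvd_of_pos hd hq1
  letI : Fintype (DirichletCharacter ℂ q) := Fintype.ofFinite _
  have hE : ∀ e : ℕ, Ch q e = univ.filter (fun χ => χ ^ e = 1) := fun e => by
    ext χ; simp [Ch]
  have hX : ∀ d : ℕ, Ex q d = univ.filter (fun χ => orderOf χ = d) := fun e => by
    ext χ; simp [Ex]
  obtain ⟨φ⟩ := DirichletCharacter.mulEquiv_units ℂ q
  have hcyc : IsCyclic (ZMod q)ˣ := ZMod.isCyclic_units_prime hq.out
  have hcyc' : IsCyclic (DirichletCharacter ℂ q) :=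
    isCyclic_of_surjective φ.symm φ.symm.surjective
  have hcard : Fintype.card (DirichletCharacter ℂ q) = q - 1 := by
    rw [Fintype.card_congr φ.toEquiv, ZMod.card_units_eq_totient, Nat.totient_prime hq.out]
  refine ⟨?_, fun g => ?_⟩
  · rw [hX]
    exact IsCyclic.card_orderOf_eq_totient (by rw [hcard]; exact hd)
  · have h1 : ∀ e ∈ d.divisors, ((ArithmeticFunction.moebius (d / e) : ℤ) : ℂ) *
        ∑ χ ∈ Ch q e, g χ = ∑ χ : DirichletCharacter ℂ q,
          g χ * (((ArithmeticFunction.moebius (d / e) : ℤ) : ℂ) *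
            (if orderOf χ ∣ e then 1 else 0)) := by
      intro e _
      rw [hE, Finset.sum_filter, Finset.mul_sum]
      refine Finset.sum_congr rfl fun χ _ => ?_
      by_cases h2 : χ ^ e = 1
      · rw [if_pos h2, if_pos (orderOf_dvd_of_pow_eq_one h2)]; ring
      · rw [if_neg h2, if_neg (fun h3 => h2 (orderOf_dvd_iff_pow_eq_one.1 h3))]; ring
    rw [Finset.sum_congr rfl h1, Finset.sum_comm, hX, Finset.sum_filter]
    refine Finset.sum_congr rfl fun χ _ => ?_
    rw [← Finset.mul_sum, ind (orderOf χ) (orderOf_pos χ) d hd0]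
    by_cases h2 : orderOf χ = d
    · rw [if_pos h2, if_pos h2.symm, mul_one]
    · rw [if_neg h2, if_neg (fun h3 => h2 h3.symm), mul_zero]

end Pool.Agent.W479.CY
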