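import Pool.Agent.W192.CY.Stn
import Pool.Agent.W479.CY.Mob

set_option autoImplicit false

open Finset

namespace Pool.Agent.W479.CY

open Pool.Agent.W192.CY

theorem g_mob : G_MOB := by
  classical
  intro q hq χ₀
  letI : Fintype (DirichletCharacter ℂ q) := Fintype.ofFinite _
  have hd0 : 0 < orderOf χ₀ := orderOf_pos χ₀
  have hE : ∀ e : ℕ, Cg q χ₀ e =
      univ.filter (fun χ => χ ∈ Subgroup.zpowers χ₀ ∧ χ ^ e = 1) := fun e => by
    ext χ; simp [Cg]
  have hX : Eg q χ₀ =
      univ.filter (fun χ => χ ∈ Subgroup.zpowers χ₀ ∧ orderOf χ = orderOf χ₀) := by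
    ext χ; simp [Eg]
  refine ⟨?_, fun g => ?_⟩
  · letI : Fintype (Subgroup.zpowers χ₀) := Fintype.ofFinite _
    have hc : Fintype.card (Subgroup.zpowers χ₀) = orderOf χ₀ := by
      rw [← Nat.card_eq_fintype_card, Nat.card_zpowers]
    have h1 := IsCyclic.card_orderOf_eq_totient (α := Subgroup.zpowers χ₀) (d := orderOf χ₀)
      (by rw [hc])
    rw [← h1, hX]
    symm
    refine Finset.card_bij (fun a _ => (a : DirichletCharacter ℂ q)) ?_ ?_ ?_
    · intro a ha
      rw [Finset.mem_filter] at ha ⊢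
      exact ⟨mem_univ _, a.2, by rw [Subgroup.orderOf_coe]; exact ha.2⟩
    · intro a _ b _ hab
      exact Subtype.ext hab
    · intro b hb
      rw [Finset.mem_filter] at hb
      refine ⟨⟨b, hb.2.1⟩, ?_, rfl⟩
      rw [Finset.mem_filter]
      refine ⟨mem_univ _, ?_⟩
      have h5 := hb.2.2
      rw [← Subgroup.orderOf_coe]
      exact h5
  · have h1 : ∀ e ∈ (orderOf χ₀).divisors,
        ((ArithmeticFunction.moebius (orderOf χ₀ / e) : ℤ) : ℂ) *
        ∑ χ ∈ Cg q χ₀ e, g χ = ∑ χ ∈ univ.filter (fun χ => χ ∈ Subgroup.zpowers χ₀),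
          g χ * (((ArithmeticFunction.moebius (orderOf χ₀ / e) : ℤ) : ℂ) *
            (if orderOf χ ∣ e then 1 else 0)) := by
      intro e _
      rw [hE, ← Finset.filter_filter, Finset.sum_filter, Finset.mul_sum]
      refine Finset.sum_congr rfl fun χ _ => ?_
      by_cases h2 : χ ^ e = 1
      · rw [if_pos h2, if_pos (orderOf_dvd_of_pow_eq_one h2)]; ring
      · rw [if_neg h2, if_neg (fun h3 => h2 (orderOf_dvd_iff_pow_eq_one.1 h3))]; ring
    rw [Finset.sum_congr rfl h1, Finset.sum_comm, hX, ← Finset.filter_filter, Finset.sum_filter]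
    refine Finset.sum_congr rfl fun χ _ => ?_
    rw [← Finset.mul_sum, ind (orderOf χ) (orderOf_pos χ) (orderOf χ₀) hd0]
    by_cases h2 : orderOf χ = orderOf χ₀
    · rw [if_pos h2, if_pos h2.symm, mul_one]
    · rw [if_neg h2, if_neg (fun h3 => h2 h3.symm), mul_zero]

end Pool.Agent.W479.CY
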